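import Mathlib
import Pool.Agent.H593.U6.F3

/-!
# The dimension of the set of exceptional centres: covering by grid cells
-/

open MeasureTheory Set Filter Topology
open Pool.Agent.H383.Gauss
open scoped ENNReal NNReal

namespace Pool.Agent.H593.U

/-- half-open cells of the grid of width `1/N` -/
def gcell (N : ℕ) (i : ℤ × ℤ) : Set (ℝ × ℝ) :=
  Ico ((i.1:ℝ) / N) (((i.1:ℝ) + 1) / N) ×ˢ Ico ((i.2:ℝ) / N) (((i.2:ℝ) + 1) / N)

lemma mem_Ico_div_iff {N : ℕ} (hN : 0 < N) (x : ℝ) (i : ℤ) :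
    x ∈ Ico ((i:ℝ) / N) (((i:ℝ) + 1) / N) ↔ ⌊N * x⌋ = i := by
  have hN0 : (0:ℝ) < N := by exact_mod_cast hN
  rw [mem_Ico, div_le_iff₀ hN0, lt_div_iff₀ hN0, Int.floor_eq_iff, mul_comm x]

lemma mem_gcell_iff {N : ℕ} (hN : 0 < N) (z : ℝ × ℝ) (i : ℤ × ℤ) :
    z ∈ gcell N i ↔ (⌊N * z.1⌋, ⌊N * z.2⌋) = i := by
  unfold gcell
  rw [mem_prod, mem_Ico_div_iff hN, mem_Ico_div_iff hN, Prod.ext_iff]

lemma gcell_disjoint {N : ℕ} (hN : 0 < N) : Pairwise (Function.onFun Disjoint (gcell N)) := by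
  intro i j hij
  rw [Function.onFun, Set.disjoint_left]
  intro z h1 h2
  rw [mem_gcell_iff hN] at h1 h2
  exact hij (h1.symm.trans h2)

lemma measurableSet_gcell (N : ℕ) (i : ℤ × ℤ) : MeasurableSet (gcell N i) :=
  measurableSet_Ico.prod measurableSet_Ico

lemma volume_gcell {N : ℕ} (hN : 0 < N) (i : ℤ × ℤ) : volume (gcell N i) = ENNReal.ofReal ((1 / (N:ℝ)) ^ 2) := by
  have hN0 : (0:ℝ) < N := by exact_mod_cast hN
  unfold gcell
  rw [Measure.volume_eq_prod, Measure.prod_prod, Real.volume_Ico, Real.volume_Ico, ← ENNReal.ofReal_mul (by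
    rw [sub_nonneg]; gcongr; linarith)]
  congr 1
  field_simp
  ring

lemma dist_gcell {N : ℕ} (hN : 0 < N) (i : ℤ × ℤ) {z w : ℝ × ℝ} (hz : z ∈ gcell N i) (hw : w ∈ gcell N i) :
    |z.1 - w.1| ≤ 1 / N ∧ |z.2 - w.2| ≤ 1 / N := by
  have hN0 : (0:ℝ) < N := by exact_mod_cast hN
  unfold gcell at hz hw
  rw [mem_prod, mem_Ico, mem_Ico] at hz hw
  obtain ⟨⟨a1, a2⟩, a3, a4⟩ := hz
  obtain ⟨⟨b1, b2⟩, b3, b4⟩ := hw
  have e1 : ((i.1:ℝ) + 1) / N = (i.1:ℝ) / N + 1 / N := by ring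
  have e2 : ((i.2:ℝ) + 1) / N = (i.2:ℝ) / N + 1 / N := by ring
  rw [e1] at a2 b2
  rw [e2] at a4 b4
  constructor <;> rw [abs_le] <;> constructor <;> linarith

lemma ediam_gcell {N : ℕ} (hN : 0 < N) (i : ℤ × ℤ) : Metric.ediam (gcell N i) ≤ ENNReal.ofReal (1 / (N:ℝ)) := by
  apply Metric.ediam_le
  intro z hz w hw
  obtain ⟨h1, h2⟩ := dist_gcell hN i hz hw
  rw [edist_dist]
  apply ENNReal.ofReal_le_ofReal
  rw [Prod.dist_eq, Real.dist_eq, Real.dist_eq]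
  exact max_le h1 h2

lemma gcell_subset_Q {N : ℕ} (hN : 0 < N) (i : ℤ × ℤ) {z : ℝ × ℝ} (hz : z ∈ gcell N i) (hzQ : z ∈ Q) : gcell N i ⊆ Q := by
  have hN0 : (0:ℝ) < N := by exact_mod_cast hN
  rw [mem_gcell_iff hN] at hz
  intro w hw
  rw [mem_gcell_iff hN] at hw
  unfold Q at hzQ ⊢
  rw [mem_prod, mem_Ico, mem_Ico] at hzQ ⊢
  obtain ⟨⟨a1, a2⟩, a3, a4⟩ := hzQ
  have key : ∀ x y : ℝ, ⌊(N:ℝ) * x⌋ = ⌊(N:ℝ) * y⌋ → 0 ≤ x → x < 1 → 0 ≤ y ∧ y < 1 := by
    intro x y h h0 h1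
    have k1 : 0 ≤ ⌊(N:ℝ) * x⌋ := Int.floor_nonneg.mpr (by positivity)
    have k2 : ⌊(N:ℝ) * x⌋ < (N:ℤ) := by
      rw [Int.floor_lt]
      push_cast
      nlinarith
    rw [h] at k1 k2
    have k3 : 0 ≤ (N:ℝ) * y := Int.floor_nonneg.mp k1
    have k4 : (N:ℝ) * y < N := by
      have := Int.floor_lt.mp k2
      push_cast at this
      exact this
    constructor
    · exact nonneg_of_mul_nonneg_right k3 hN0
    · nlinarith
  have h := hz.trans hw.symm
  rw [Prod.ext_iff] at h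
  exact ⟨key _ _ h.1 a1 a2, key _ _ h.2 a3 a4⟩

open Classical in
/-- the cells which meet `A` -/
noncomputable def tcell (N : ℕ) (A : Set (ℝ × ℝ)) (i : ℤ × ℤ) : Set (ℝ × ℝ) :=
  if (gcell N i ∩ A).Nonempty then gcell N i else ∅

lemma subset_tcell {N : ℕ} (hN : 0 < N) (A : Set (ℝ × ℝ)) : A ⊆ ⋃ i, tcell N A i := by
  intro z hz
  rw [mem_iUnion]
  refine ⟨(⌊N * z.1⌋, ⌊N * z.2⌋), ?_⟩
  have h : z ∈ gcell N (⌊N * z.1⌋, ⌊N * z.2⌋) := (mem_gcell_iff hN z _).mpr rfl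
  unfold tcell
  rw [if_pos ⟨z, h, hz⟩]
  exact h

lemma ediam_tcell {N : ℕ} (hN : 0 < N) (A : Set (ℝ × ℝ)) (i : ℤ × ℤ) : Metric.ediam (tcell N A i) ≤ ENNReal.ofReal (1 / (N:ℝ)) := by
  unfold tcell
  split_ifs
  · exact ediam_gcell hN i
  · simp

/-- the `s`-sum of the cells which meet `A` -/
theorem sum_tcell {N : ℕ} (hN : 0 < N) {A E : Set (ℝ × ℝ)} {s : ℝ} (hs : 0 < s)
    (h : ∀ i, (gcell N i ∩ A).Nonempty → gcell N i ⊆ E) :
    ∑' i, Metric.ediam (tcell N A i) ^ s ≤ ENNReal.ofReal ((N:ℝ) ^ (2 - s)) * volume E := by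
  have hN0 : (0:ℝ) < N := by exact_mod_cast hN
  have h1 : ∀ i, Metric.ediam (tcell N A i) ^ s ≤ ENNReal.ofReal ((N:ℝ) ^ (2 - s)) * volume (tcell N A i) := by
    intro i
    by_cases hi : (gcell N i ∩ A).Nonempty
    · have e : tcell N A i = gcell N i := by unfold tcell; rw [if_pos hi]
      rw [e, volume_gcell hN, ← ENNReal.ofReal_mul (by positivity)]
      calc Metric.ediam (gcell N i) ^ s ≤ ENNReal.ofReal (1 / (N:ℝ)) ^ s := ENNReal.rpow_le_rpow (ediam_gcell hN i) hs.le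
        _ = ENNReal.ofReal ((1 / (N:ℝ)) ^ s) := ENNReal.ofReal_rpow_of_pos (by positivity)
        _ ≤ _ := by
            apply ENNReal.ofReal_le_ofReal
            apply le_of_eq
            rw [one_div, Real.inv_rpow hN0.le, ← Real.rpow_neg hN0.le, inv_pow, ← Real.rpow_natCast, ← Real.rpow_neg hN0.le,
              ← Real.rpow_add hN0]
            congr 1
            push_cast
            ring
    · have e : tcell N A i = ∅ := by unfold tcell; rw [if_neg hi]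
      rw [e, Metric.ediam_empty, ENNReal.zero_rpow_of_pos hs]
      exact zero_le
  refine (ENNReal.tsum_le_tsum h1).trans ?_
  rw [ENNReal.tsum_mul_left]
  gcongr
  have hsub : ∀ i, tcell N A i ⊆ gcell N i := by
    intro i
    unfold tcell
    split_ifs
    · exact subset_rfl
    · exact empty_subset _
  have hm : ∀ i, MeasurableSet (tcell N A i) := by
    intro i
    unfold tcell
    split_ifs
    · exact measurableSet_gcell N i
    · exact MeasurableSet.empty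
  have hd : Pairwise (Function.onFun Disjoint (tcell N A)) := by
    intro i j hij
    exact Disjoint.mono (hsub i) (hsub j) (gcell_disjoint hN hij)
  refine (tsum_meas_le_meas_iUnion_of_disjoint volume hm hd).trans (measure_mono ?_)
  apply iUnion_subset
  intro i
  unfold tcell
  split_ifs with hi
  · exact h i hi
  · exact empty_subset _

end Pool.Agent.H593.U
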