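import Mathlib
import Pool.Agent.H593.U8.Dim1

/-!
# The dimension of the set of exceptional centres: stability of the error term in the centre
-/

open MeasureTheory Set Filter Topology
open Pool.Agent.H383.Gauss
open scoped ENNReal NNReal

namespace Pool.Agent.H593.U

lemma Na_shift {a b : ℝ × ℝ} {ρ R : ℝ} (hR : 0 ≤ R) (h1 : |a.1 - b.1| ≤ ρ) (h2 : |a.2 - b.2| ≤ ρ) :
    Na a R ≤ Na b (R + 2 * ρ) := by
  have hρ : 0 ≤ ρ := (abs_nonneg _).trans h1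
  rw [Na_eq_card a hR, Na_eq_card b (by linarith)]
  have hab : ‖ac a - ac b‖ ≤ 2 * ρ := by
    have e : ac a - ac b = (((a.1 - b.1 : ℝ)) : ℂ) + (((a.2 - b.2 : ℝ)) : ℂ) * Complex.I := by
      unfold ac; push_cast; ring
    rw [e]
    refine (norm_add_le _ _).trans ?_
    rw [norm_mul, Complex.norm_I, mul_one, Complex.norm_real, Complex.norm_real, Real.norm_eq_abs, Real.norm_eq_abs]
    linarith
  have : ballA a R ⊆ ballA b (R + 2 * ρ) := by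
    intro p hp
    rw [mem_ballA hR] at hp
    rw [mem_ballA (by linarith)]
    rw [← norm_pc_sub] at hp ⊢
    calc ‖pc p - ac b‖ = ‖(pc p - ac a) + (ac a - ac b)‖ := by congr 1; ring
      _ ≤ ‖pc p - ac a‖ + ‖ac a - ac b‖ := norm_add_le _ _
      _ ≤ R + 2 * ρ := by linarith
  exact_mod_cast Finset.card_le_card this

lemma Pa_stab {a b : ℝ × ℝ} {ρ R T : ℝ} (hR : 0 ≤ R) (h1 : |a.1 - b.1| ≤ ρ) (h2 : |a.2 - b.2| ≤ ρ)
    (hT : 40 * R * ρ ≤ T) (hρR : 10 * ρ ≤ R) (h : T < |Pa a R|) :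
    ∃ R' : ℝ, R - 2 * ρ ≤ R' ∧ R' ≤ R + 2 * ρ ∧ T / 2 < |Pa b R'| := by
  have hρ : 0 ≤ ρ := (abs_nonneg _).trans h1
  have hpi := Real.pi_lt_d2
  have hpi0 := Real.pi_pos
  have hT0 : 0 ≤ T := le_trans (by positivity) hT
  have e1 : ρ ^ 2 ≤ R * ρ / 10 := by nlinarith
  have e2 : Real.pi * (R * ρ) ≤ 3.15 * (R * ρ) := by
    have : 0 ≤ R * ρ := by positivity
    nlinarith
  have e3 : Real.pi * ρ ^ 2 ≤ Real.pi * (R * ρ / 10) := by gcongr
  unfold Pa at h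
  rcases lt_abs.mp h with h3 | h3
  · refine ⟨R + 2 * ρ, by linarith, le_rfl, ?_⟩
    have k := Na_shift hR h1 h2
    refine lt_of_lt_of_le ?_ (le_abs_self _)
    unfold Pa
    nlinarith
  · refine ⟨R - 2 * ρ, le_rfl, by linarith, ?_⟩
    have k := Na_shift (a := b) (b := a) (ρ := ρ) (R := R - 2 * ρ) (by linarith) (by rwa [abs_sub_comm]) (by rwa [abs_sub_comm])
    rw [sub_add_cancel] at k
    refine lt_of_lt_of_le ?_ (neg_le_abs _)
    unfold Pa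
    nlinarith

/-- centres with a large error term for a radius in `[X, 2X]` -/
def SV (X V : ℝ) : Set (ℝ × ℝ) := {a : ℝ × ℝ | a ∈ Q ∧ ∃ R : ℝ, X ≤ R ∧ R ≤ 2 * X ∧ V * √R < |Pa a R|}

/-- centres which violate the exponent `θ` for a radius in `[X, 2X]` -/
def Ex (θ X : ℝ) : Set (ℝ × ℝ) := {a : ℝ × ℝ | a ∈ Q ∧ ∃ R : ℝ, X ≤ R ∧ R ≤ 2 * X ∧ R ^ θ < |Pa a R|}

lemma cell_Ex {θ X : ℝ} (h0 : 0 < θ) (h1 : θ < 1) (hX : 1 ≤ X) {N : ℕ} (hN : 80 * X ^ (1 - θ) ≤ N) (i : ℤ × ℤ)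
    (hi : (gcell N i ∩ Ex θ X).Nonempty) :
    gcell N i ⊆ SV (X / 2) (X ^ (θ - 1 / 2) / 4) ∪ SV X (X ^ (θ - 1 / 2) / 4) ∪ SV (2 * X) (X ^ (θ - 1 / 2) / 4) := by
  have hX0 : 0 < X := by linarith
  have hXt : 1 ≤ X ^ (1 - θ) := Real.one_le_rpow hX (by linarith)
  have hN80 : (80:ℝ) ≤ N := by linarith
  have hN0 : (0:ℝ) < N := by linarith
  have hNp : 0 < N := by exact_mod_cast hN0
  obtain ⟨z, hz, hzQ, R, hR1, hR2, hR3⟩ := hi
  have hR0 : 0 < R := by linarith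
  intro w hw
  obtain ⟨d1, d2'⟩ := dist_gcell hNp i hz hw
  have hwQ : w ∈ Q := gcell_subset_Q hNp i hz hzQ hw
  have hT : X ^ θ ≤ R ^ θ := Real.rpow_le_rpow hX0.le hR1 h0.le
  have hXX : X ^ θ * X ^ (1 - θ) = X := by rw [← Real.rpow_add hX0]; simp
  have hρ : 1 / (N:ℝ) ≤ X ^ θ / (80 * X) := by
    rw [div_le_div_iff₀ hN0 (by positivity)]
    have hXθ : 0 < X ^ θ := by positivity
    calc 1 * (80 * X) = X ^ θ * (80 * X ^ (1 - θ)) := by nlinarith [hXX]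
      _ ≤ X ^ θ * N := by gcongr
  have hρ2 : 1 / (N:ℝ) ≤ 1 / 80 := by gcongr
  have hst : 40 * R * (1 / (N:ℝ)) ≤ X ^ θ := by
    calc 40 * R * (1 / (N:ℝ)) ≤ 40 * (2 * X) * (X ^ θ / (80 * X)) := by gcongr
      _ = X ^ θ := by field_simp; ring
  obtain ⟨R', k1, k2, k3⟩ := Pa_stab hR0.le d1 d2' hst (by linarith) (lt_of_le_of_lt hT hR3)
  have hR'0 : 0 ≤ R' := by linarith
  have hR'4 : R' ≤ 4 * X := by linarith
  have hR'1 : X / 2 ≤ R' := by linarith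
  have hV : X ^ (θ - 1 / 2) / 4 * √R' < |Pa w R'| := by
    refine lt_of_le_of_lt ?_ k3
    have e1 : √R' ≤ 2 * √X := by
      calc √R' ≤ √(4 * X) := Real.sqrt_le_sqrt hR'4
        _ = 2 * √X := by
          rw [Real.sqrt_mul (by norm_num), show (4:ℝ) = 2 ^ 2 by norm_num, Real.sqrt_sq (by norm_num)]
    have e2 : X ^ (θ - 1 / 2) * √X = X ^ θ := by
      rw [Real.sqrt_eq_rpow, ← Real.rpow_add hX0]
      congr 1
      ring
    calc X ^ (θ - 1 / 2) / 4 * √R' ≤ X ^ (θ - 1 / 2) / 4 * (2 * √X) := by gcongr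
      _ = (X ^ (θ - 1 / 2) * √X) / 2 := by ring
      _ = X ^ θ / 2 := by rw [e2]
  rcases le_or_gt R' X with q1 | q1
  · left; left
    exact ⟨hwQ, R', hR'1, by linarith, hV⟩
  rcases le_or_gt R' (2 * X) with q2 | q2
  · left; right
    exact ⟨hwQ, R', q1.le, q2, hV⟩
  · right
    exact ⟨hwQ, R', q2.le, by linarith, hV⟩

/-- number of cells in terms of the size of the radii -/
noncomputable def NX (θ X : ℝ) : ℕ := ⌈80 * X ^ (1 - θ)⌉₊

theorem sum_Ex {θ s ε : ℝ} (h0 : 0 < θ) (h1 : θ < 1) (hs0 : 0 < s) (hs2 : s ≤ 2) (hε : 0 < ε) :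
    ∃ C : ℝ, 0 < C ∧ ∀ X : ℝ, 2 ≤ X → ∑' i, Metric.ediam (tcell (NX θ X) (Ex θ X) i) ^ s ≤
      ENNReal.ofReal (C * X ^ ((1 - θ) * (2 - s) + 1 + ε - 28 / 3 * (θ - 1 / 2))) := by
  obtain ⟨C, hC, h⟩ := area_all hε
  refine ⟨81 ^ (2 - s) * (3 * C * 2 ^ (1 + ε) * 4 ^ (28 / 3 : ℝ)), by positivity, ?_⟩
  intro X hX
  have hX0 : 0 < X := by linarith
  have hX1 : 1 ≤ X := by linarith
  have hXt : 1 ≤ X ^ (1 - θ) := Real.one_le_rpow hX1 (by linarith)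
  have hN : 80 * X ^ (1 - θ) ≤ NX θ X := Nat.le_ceil _
  have hN0 : (0:ℝ) < NX θ X := by linarith
  have hNp : 0 < NX θ X := by exact_mod_cast hN0
  have hN81 : (NX θ X : ℝ) ≤ 81 * X ^ (1 - θ) := by
    have := (Nat.ceil_lt_add_one (a := 80 * X ^ (1 - θ)) (by positivity)).le
    unfold NX
    linarith
  set V := X ^ (θ - 1 / 2) / 4 with hV
  have hV0 : 0 < V := by positivity
  refine (sum_tcell hNp hs0 (fun i hi => cell_Ex h0 h1 hX1 hN i hi)).trans ?_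
  have hv : ∀ Y : ℝ, 1 ≤ Y → Y ≤ 2 * X → volume (SV Y V) ≤ ENNReal.ofReal (C * ((2 * X) ^ (1 + ε) * V ^ (-(28/3):ℝ))) := by
    intro Y hY1 hY2
    refine (h Y V hY1 hV0).trans (ENNReal.ofReal_le_ofReal ?_)
    gcongr
  have hvol : volume (SV (X / 2) V ∪ SV X V ∪ SV (2 * X) V) ≤
      ENNReal.ofReal (3 * (C * ((2 * X) ^ (1 + ε) * V ^ (-(28/3):ℝ)))) := by
    have e : ENNReal.ofReal (3 * (C * ((2 * X) ^ (1 + ε) * V ^ (-(28/3):ℝ)))) =
        ENNReal.ofReal (C * ((2 * X) ^ (1 + ε) * V ^ (-(28/3):ℝ))) + ENNReal.ofReal (C * ((2 * X) ^ (1 + ε) * V ^ (-(28/3):ℝ))) +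
        ENNReal.ofReal (C * ((2 * X) ^ (1 + ε) * V ^ (-(28/3):ℝ))) := by
      rw [← ENNReal.ofReal_add (by positivity) (by positivity), ← ENNReal.ofReal_add (by positivity) (by positivity)]
      congr 1
      ring
    rw [e]
    refine (measure_union_le _ _).trans ?_
    gcongr
    · refine (measure_union_le _ _).trans ?_
      gcongr
      · exact hv _ (by linarith) (by linarith)
      · exact hv _ hX1 (by linarith)
    · exact hv _ (by linarith) le_rfl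
  calc ENNReal.ofReal ((NX θ X : ℝ) ^ (2 - s)) * volume (SV (X / 2) V ∪ SV X V ∪ SV (2 * X) V)
      ≤ ENNReal.ofReal ((81 * X ^ (1 - θ)) ^ (2 - s)) * ENNReal.ofReal (3 * (C * ((2 * X) ^ (1 + ε) * V ^ (-(28/3):ℝ)))) := by
        gcongr
    _ = ENNReal.ofReal ((81 * X ^ (1 - θ)) ^ (2 - s) * (3 * (C * ((2 * X) ^ (1 + ε) * V ^ (-(28/3):ℝ))))) := by
        rw [← ENNReal.ofReal_mul (by positivity)]
    _ ≤ _ := by
        apply ENNReal.ofReal_le_ofReal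
        apply le_of_eq
        rw [Real.mul_rpow (by norm_num) (by positivity), Real.mul_rpow (by norm_num) hX0.le, hV,
          Real.div_rpow (by positivity) (by norm_num), ← Real.rpow_mul hX0.le, ← Real.rpow_mul hX0.le,
          Real.rpow_neg (by norm_num : (0:ℝ) ≤ 4), div_inv_eq_mul]
        have e : X ^ ((1 - θ) * (2 - s) + 1 + ε - 28 / 3 * (θ - 1 / 2)) =
            X ^ ((1 - θ) * (2 - s)) * X ^ (1 + ε) * X ^ ((θ - 1 / 2) * (-(28 / 3))) := by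
          rw [← Real.rpow_add hX0, ← Real.rpow_add hX0]
          congr 1
          ring
        rw [e]
        ring

end Pool.Agent.H593.U
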