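import Mathlib
import Pool.Agent.H593.U8.Dim2

/-!
# The dimension of the set of exceptional centres
-/

open MeasureTheory Set Filter Topology
open Pool.Agent.H383.Gauss
open scoped ENNReal NNReal

namespace Pool.Agent.H593.U

/-- exceptional centres in the unit square -/
def ExQ (θ : ℝ) : Set (ℝ × ℝ) := {a : ℝ × ℝ | a ∈ Q ∧ ∃ᶠ R in atTop, R ^ θ < |Pa a R|}

lemma ExQ_subset {θ : ℝ} {a : ℝ × ℝ} (ha : a ∈ ExQ θ) (n : ℕ) : ∃ m : ℕ, n ≤ m ∧ a ∈ Ex θ (2 ^ m) := by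
  obtain ⟨haQ, hf⟩ := ha
  obtain ⟨R, hR, hR2⟩ := (frequently_atTop.mp hf) (2 ^ n : ℝ)
  have hR1 : 1 ≤ R := le_trans (one_le_pow₀ (by norm_num)) hR
  obtain ⟨m, hm1, hm2⟩ := exists_nat_pow_near hR1 (by norm_num : (1:ℝ) < 2)
  refine ⟨m, ?_, haQ, R, hm1, ?_, hR2⟩
  · by_contra hc
    push Not at hc
    have : (2:ℝ) ^ (m + 1) ≤ 2 ^ n := pow_le_pow_right₀ (by norm_num) hc
    linarith
  · rw [pow_succ] at hm2
    linarith

theorem hausdorff_ExQ {θ s : ℝ} (h0 : 0 < θ) (h1 : θ < 1) (hs0 : 0 < s) (hs2 : s ≤ 2)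
    (hs : (1 - θ) * (2 - s) + 1 < 28 / 3 * (θ - 1 / 2)) : μH[s] (ExQ θ) = 0 := by
  obtain ⟨ε, hε, hε2⟩ : ∃ ε : ℝ, 0 < ε ∧ (1 - θ) * (2 - s) + 1 + ε < 28 / 3 * (θ - 1 / 2) :=
    ⟨(28 / 3 * (θ - 1 / 2) - ((1 - θ) * (2 - s) + 1)) / 2, by linarith, by linarith⟩
  set κ := (1 - θ) * (2 - s) + 1 + ε - 28 / 3 * (θ - 1 / 2) with hκ
  have hκ0 : κ < 0 := by linarith
  obtain ⟨C, hC, h⟩ := sum_Ex h0 h1 hs0 hs2 hε
  set q : ℝ := 2 ^ κ with hq
  have hq0 : 0 < q := by positivity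
  have hq1 : q < 1 := Real.rpow_lt_one_of_one_lt_of_neg (by norm_num) hκ0
  have hpow : ∀ m : ℕ, ((2:ℝ) ^ m) ^ κ = q ^ m := by
    intro m
    rw [hq, ← Real.rpow_natCast, ← Real.rpow_natCast, ← Real.rpow_mul (by norm_num), ← Real.rpow_mul (by norm_num), mul_comm]
  have hNp : ∀ m : ℕ, 0 < NX θ (2 ^ m) := by
    intro m
    unfold NX
    rw [Nat.ceil_pos]
    positivity
  -- the coverings
  have key := Measure.hausdorffMeasure_le_liminf_tsum (X := ℝ × ℝ) (β := ℕ) (ι := fun _ => ℕ × (ℤ × ℤ)) s (ExQ θ) (l := atTop)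
    (fun n => ENNReal.ofReal ((((2:ℝ) ^ (-(1 - θ))) ^ n)))
    (by
      rw [← ENNReal.ofReal_zero]
      apply ENNReal.tendsto_ofReal
      apply tendsto_pow_atTop_nhds_zero_of_lt_one (by positivity)
      exact Real.rpow_lt_one_of_one_lt_of_neg (by norm_num) (by linarith))
    (fun n p => tcell (NX θ (2 ^ (n + p.1))) (Ex θ (2 ^ (n + p.1))) p.2)
    (by
      refine Filter.Eventually.of_forall ?_
      rintro n ⟨k, i⟩
      refine (ediam_tcell (hNp _) _ i).trans (ENNReal.ofReal_le_ofReal ?_)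
      have hx : (0:ℝ) < 2 ^ (n + k) := by positivity
      have e1 : ((2:ℝ) ^ (n + k)) ^ (1 - θ) ≤ NX θ (2 ^ (n + k)) := by
        have : 80 * ((2:ℝ) ^ (n + k)) ^ (1 - θ) ≤ NX θ (2 ^ (n + k)) := Nat.le_ceil _
        have h2 : 0 < ((2:ℝ) ^ (n + k)) ^ (1 - θ) := by positivity
        linarith
      have e2 : ((2:ℝ) ^ n) ^ (1 - θ) ≤ ((2:ℝ) ^ (n + k)) ^ (1 - θ) := by
        apply Real.rpow_le_rpow (by positivity) _ (by linarith)
        exact pow_le_pow_right₀ (by norm_num) (by omega)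
      have e3 : ((2:ℝ) ^ (-(1 - θ))) ^ n = 1 / ((2:ℝ) ^ n) ^ (1 - θ) := by
        rw [← Real.rpow_natCast, ← Real.rpow_natCast, ← Real.rpow_mul (by norm_num), ← Real.rpow_mul (by norm_num), one_div,
          ← Real.rpow_neg (by norm_num)]
        congr 1
        ring
      rw [e3]
      apply one_div_le_one_div_of_le (by positivity)
      exact e2.trans e1)
    (by
      refine Filter.Eventually.of_forall ?_
      intro n a ha
      obtain ⟨m, hm1, hm2⟩ := ExQ_subset ha n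
      obtain ⟨i, hi⟩ := mem_iUnion.mp (subset_tcell (hNp m) (Ex θ (2 ^ m)) hm2)
      rw [mem_iUnion]
      refine ⟨(m - n, i), ?_⟩
      have e : n + (m - n) = m := by omega
      simp only [e]
      exact hi)
  have hbound : ∀ n : ℕ, 1 ≤ n →
      ∑' p : ℕ × (ℤ × ℤ), Metric.ediam (tcell (NX θ (2 ^ (n + p.1))) (Ex θ (2 ^ (n + p.1))) p.2) ^ s ≤
      ENNReal.ofReal (C * (1 - q)⁻¹ * q ^ n) := by
    intro n hn
    rw [ENNReal.tsum_prod']
    have h3 : ∀ k : ℕ, ∑' i : ℤ × ℤ, Metric.ediam (tcell (NX θ (2 ^ (n + k))) (Ex θ (2 ^ (n + k))) i) ^ s ≤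
        ENNReal.ofReal (C * q ^ n * q ^ k) := by
      intro k
      refine (h (2 ^ (n + k)) ?_).trans (le_of_eq ?_)
      · calc (2:ℝ) = 2 ^ 1 := by norm_num
          _ ≤ 2 ^ (n + k) := pow_le_pow_right₀ (by norm_num) (by omega)
      · rw [hpow, pow_add]
        congr 1
        ring
    refine (ENNReal.tsum_le_tsum h3).trans ?_
    have hsum : Summable (fun k : ℕ => C * q ^ n * q ^ k) := (summable_geometric_of_lt_one hq0.le hq1).mul_left _
    rw [← ENNReal.ofReal_tsum_of_nonneg (fun k => by positivity) hsum]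
    apply ENNReal.ofReal_le_ofReal
    rw [tsum_mul_left, tsum_geometric_of_lt_one hq0.le hq1]
    apply le_of_eq
    ring
  have hlim : Tendsto (fun n : ℕ => ENNReal.ofReal (C * (1 - q)⁻¹ * q ^ n)) atTop (𝓝 0) := by
    rw [← ENNReal.ofReal_zero]
    apply ENNReal.tendsto_ofReal
    have := (tendsto_pow_atTop_nhds_zero_of_lt_one hq0.le hq1).const_mul (C * (1 - q)⁻¹)
    rwa [mul_zero] at this
  refine le_antisymm (key.trans ?_) zero_le
  refine (Filter.liminf_le_liminf ?_).trans hlim.liminf_eq.le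
  filter_upwards [Filter.eventually_ge_atTop 1] with n hn
  exact hbound n hn

/-- the dimension of the exceptional centres in the unit square -/
theorem dimH_ExQ {θ : ℝ} (h0 : 17 / 28 < θ) (h1 : θ < 1) :
    dimH (ExQ θ) ≤ ENNReal.ofReal (2 - (28 * θ - 17) / (3 * (1 - θ))) := by
  have h1' : 0 < 1 - θ := by linarith
  set d0 := 2 - (28 * θ - 17) / (3 * (1 - θ)) with hd0
  have hd2 : d0 < 2 := by
    have : 0 < (28 * θ - 17) / (3 * (1 - θ)) := div_pos (by linarith) (by linarith)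
    linarith
  apply ENNReal.le_of_forall_pos_le_add
  intro η hη _
  -- choose `s` in `(max d0 0, min 2 (max d0 0 + η))`
  set s : ℝ := min ((max d0 0 + 2) / 2) (max d0 0 + η) with hs
  have hη0 : (0:ℝ) < η := by exact_mod_cast hη
  have hm2 : max d0 0 < 2 := max_lt hd2 (by norm_num)
  have hs1 : max d0 0 < s := by rw [hs]; apply lt_min <;> linarith
  have hs0 : 0 < s := lt_of_le_of_lt (le_max_right _ _) hs1
  have hsd : d0 < s := lt_of_le_of_lt (le_max_left _ _) hs1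
  have hs2 : s ≤ 2 := (min_le_left _ _).trans (by linarith)
  have hsη : s ≤ max d0 0 + η := min_le_right _ _
  have hμ : μH[s] (ExQ θ) = 0 := by
    apply hausdorff_ExQ (by linarith) h1 hs0 hs2
    have : (28 * θ - 17) / (3 * (1 - θ)) > 2 - s := by linarith
    rw [gt_iff_lt, lt_div_iff₀ (by linarith)] at this
    linarith
  have hdim : dimH (ExQ θ) ≤ ENNReal.ofReal s := by
    apply dimH_le_of_hausdorffMeasure_ne_top (d := s.toNNReal)
    rw [Real.coe_toNNReal s hs0.le, hμ]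
    exact ENNReal.zero_ne_top
  refine hdim.trans ?_
  calc ENNReal.ofReal s ≤ ENNReal.ofReal (max d0 0 + η) := ENNReal.ofReal_le_ofReal hsη
    _ = ENNReal.ofReal (max d0 0) + ENNReal.ofReal η := ENNReal.ofReal_add (le_max_right _ _) hη0.le
    _ = ENNReal.ofReal d0 + η := by
        congr 1
        · rcases le_total 0 d0 with hd | hd
          · rw [max_eq_left hd]
          · rw [max_eq_right hd, ENNReal.ofReal_zero, ENNReal.ofReal_of_nonpos hd]
        · exact ENNReal.ofReal_coe_nnreal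

/-- **The dimension of the set of exceptional centres.** -/
theorem dimH_exceptional {θ : ℝ} (h0 : 17 / 28 < θ) (h1 : θ < 1) :
    dimH {a : ℝ × ℝ | ∃ᶠ R in atTop, R ^ θ < |Pa a R|} ≤ ENNReal.ofReal (2 - (28 * θ - 17) / (3 * (1 - θ))) := by
  have hcov : {a : ℝ × ℝ | ∃ᶠ R in atTop, R ^ θ < |Pa a R|} ⊆ ⋃ q : ℤ × ℤ, (fun a => a + zc q) '' (ExQ θ) := by
    intro a ha
    rw [mem_iUnion]
    refine ⟨(⌊a.1⌋, ⌊a.2⌋), a + zc (-⌊a.1⌋, -⌊a.2⌋), ⟨(mem_Q_iff a _).mpr rfl, ?_⟩, ?_⟩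
    · have : ∀ R, Pa (a + zc (-⌊a.1⌋, -⌊a.2⌋)) R = Pa a R := fun R => Pa_periodic a _ R
      simp only [this]
      exact ha
    · ext <;> simp [zc]
  refine (dimH_mono hcov).trans ?_
  rw [dimH_iUnion]
  apply iSup_le
  intro q
  have : dimH ((fun a => a + zc q) '' (ExQ θ)) = dimH (ExQ θ) :=
    (IsometryEquiv.addRight (zc q)).dimH_image _
  rw [this]
  exact dimH_ExQ h0 h1

end Pool.Agent.H593.U
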